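import Mathlib

set_option autoImplicit false

/-!
# The group-theoretic approach to matrix multiplication in groups with a large solvable normal
# subgroup of bounded exponent: definitions and the statements of the parts of the proof
-/

namespace Pool.Agent.TH97.GB

/-- The simultaneous triple product property of a family of triples of finite subsets `A i`, `B i`,
`C i` of a group (Cohn, Kleinberg, Szegedy, Umans 2005). -/
def STPP {G ι : Type} [Group G] (A B C : ι → Finset G) : Prop :=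
  ∀ i j k : ι, ∀ a' ∈ A i, ∀ a ∈ A j, ∀ b' ∈ B j, ∀ b ∈ B k, ∀ c' ∈ C k, ∀ c ∈ C i,
    a' * a⁻¹ * (b' * b⁻¹) * (c' * c⁻¹) = 1 → i = j ∧ j = k ∧ a' = a ∧ b' = b ∧ c' = c

/-- the sum bound: `∑ (|A i| |B i| |C i|) ^ (2/3) ≤ β` for all families with the simultaneous triple
product property in `G` -/
def SumBound (G : Type) [Group G] (β : ℝ) : Prop :=
  ∀ (ι : Type) [Fintype ι] (A B C : ι → Finset G), STPP A B C →
    ∑ i, (((A i).card * (B i).card * (C i).card : ℕ) : ℝ) ^ ((2 : ℝ) / 3) ≤ β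

/-- a bound for families of cubes in all powers of `H` -/
def SqBound (H : Type) [Group H] (β : ℝ) : Prop :=
  ∀ (n : ℕ) (ι : Type) [Finite ι] (A B C : ι → Finset (Fin n → H)) (s : ℕ), STPP A B C →
    (∀ i, (A i).card = s ∧ (B i).card = s ∧ (C i).card = s) →
    (Nat.card ι : ℝ) * (s : ℝ) ^ 2 ≤ 3 * β ^ n

/-- A descending series of normal subgroups of `H`, ending with `lam L = 1`, such that for all `i` the
group `lam i / lam (i+1)` has exponent `p` and is central in `lam 0 / lam (i+1)`. -/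
def PCS (p : ℕ) (H : Type) [Group H] (L : ℕ) (lam : ℕ → Subgroup H) : Prop :=
  (∀ i, (lam i).Normal) ∧ (∀ i, lam (i + 1) ≤ lam i) ∧
  (∀ i, ∀ x ∈ lam i, ∀ g ∈ lam 0, x⁻¹ * g⁻¹ * x * g ∈ lam (i + 1)) ∧
  (∀ i, ∀ x ∈ lam i, x ^ p ∈ lam (i + 1)) ∧ lam L = ⊥

/-- TL: trace lemma. -/
def P_TL : Prop := ∀ (p : ℕ) [Fact p.Prime] (G : Type) [Group G] [Finite G]
  (W : Submodule (ZMod p) (MonoidAlgebra (ZMod p) G)),
  (∀ x ∈ W, ∀ y ∈ W, ∀ z ∈ W, x * y * z = 0) →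
  ∀ (ι : Type) [Finite ι] (A B C : ι → Finset G) (s : ℕ), STPP A B C →
    (∀ i, (A i).card = s ∧ (B i).card = s ∧ (C i).card = s) →
    Nat.card ι * s ^ 2 ≤ 3 * Module.finrank (ZMod p) (MonoidAlgebra (ZMod p) G ⧸ W)

/-- PT: power trick. -/
def P_PT : Prop := ∀ (H : Type) [Group H] [Finite H] (β : ℝ), 0 < β → SqBound H β → SumBound H β

/-- SR: passage from a subgroup to the group. -/
def P_SR : Prop := ∀ (G : Type) [Group G] [Finite G] (H : Subgroup G) (β : ℝ),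
  SumBound H β → SumBound G ((H.index : ℝ) ^ 3 * β)

/-- FL: the weighted filtration of the group algebra. -/
def P_FL : Prop := ∀ (p : ℕ) [Fact p.Prime] (L : ℕ) (H : Type) [Group H] [Finite H]
  (lam : ℕ → Subgroup H), PCS p H L lam →
  ∃ (r : ℕ) (w : Fin r → ℕ), Nat.card (lam 0) = p ^ r ∧ (∀ j, 1 ≤ w j ∧ w j ≤ (p + 1) ^ L) ∧
    ∀ a : ℕ, (∑ j, w j) * (p - 1) < 3 * a →
      ∃ W : Submodule (ZMod p) (MonoidAlgebra (ZMod p) H),
        (∀ x ∈ W, ∀ y ∈ W, ∀ z ∈ W, x * y * z = 0) ∧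
        Module.finrank (ZMod p) (MonoidAlgebra (ZMod p) H ⧸ W) ≤
          (lam 0).index * Nat.card {e : Fin r → Fin p // ∑ j, w j * (e j : ℕ) < a}

/-- CT: counting. -/
def P_CT : Prop := ∀ (p M : ℕ), 2 ≤ p → ∃ ρ : ℝ, 0 < ρ ∧ ρ < 1 ∧
  ∀ (r : ℕ) (w : Fin r → ℕ), (∀ j, 1 ≤ w j ∧ w j ≤ M) →
    (Nat.card {e : Fin r → Fin p // 3 * ∑ j, w j * (e j : ℕ) ≤ (∑ j, w j) * (p - 1)} : ℝ) ≤
      (ρ * p) ^ r

/-- LS: a characteristic series. -/
def P_LS : Prop := ∀ (p : ℕ) [Fact p.Prime] (k e : ℕ) (H : Type) [Group H] [Finite H]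
  (P : Subgroup H), P.Normal → IsPGroup p P → P.lowerCentralSeries k = ⊥ →
  (∀ x ∈ P, x ^ p ^ e = 1) → ∃ lam : ℕ → Subgroup H, PCS p H (k * e) lam ∧ lam 0 = P

/-- DL: bound for the derived length. -/
def P_DL : Prop := ∀ (m k : ℕ), 0 < m → ∃ D : ℕ, ∀ (Q : Type) [Group Q] [Finite Q], Group.IsSolvable Q →
  (∀ x : Q, x ^ m = 1) →
  (∀ p : ℕ, p.Prime → ∀ P : Subgroup Q, IsPGroup p P → P.lowerCentralSeries k = ⊥) →
  derivedSeries Q D = ⊥

/-- DM: a dominating layer and the Frattini argument. -/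
def P_DM : Prop := ∀ (m D : ℕ) (δ : ℝ), 0 < m → 0 < δ → ∃ c : ℝ, 0 < c ∧
  ∀ (G : Type) [Group G] [Finite G] (Q : Subgroup G), Q.Normal → derivedSeries Q D = ⊥ →
    (∀ x ∈ Q, x ^ m = 1) →
    ∃ p : ℕ, p.Prime ∧ p ≤ m + 1 ∧ ∃ P : Subgroup G, P ≤ Q ∧ IsPGroup p P ∧
      (Nat.card Q : ℝ) ^ c ≤ Nat.card P ∧
      ((Subgroup.normalizer (P : Set G)).index : ℝ) ≤ (Nat.card P : ℝ) ^ δ

end Pool.Agent.TH97.GB
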