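import Pool.Agent.TH97.GB.FL5
import Pool.Agent.TH416.GB_PT
import Pool.Agent.TH494.GB_DL
import Pool.Agent.TH511.GB_LS
import Pool.Agent.TH511.GB_TL
import Pool.Agent.TH558.GB_CT
import Pool.Agent.TH558.GB_SR
import Pool.Agent.TH866.GB_DM

set_option autoImplicit false
set_option linter.unusedSectionVars false

namespace Pool.Agent.TH97.GB

/-- a subspace of small codimension without nonzero triple products -/
lemma fb (p : ℕ) [Fact p.Prime] (L : ℕ) : ∃ c : ℝ, 0 < c ∧ ∀ (H : Type) [Group H] [Finite H]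
    (lam : ℕ → Subgroup H), PCS p H L lam →
    ∃ W : Submodule (ZMod p) (MonoidAlgebra (ZMod p) H),
      (∀ x ∈ W, ∀ y ∈ W, ∀ z ∈ W, x * y * z = 0) ∧
      (Module.finrank (ZMod p) (MonoidAlgebra (ZMod p) H ⧸ W) : ℝ) ≤
        Nat.card H * (Nat.card (lam 0) : ℝ) ^ (-c) := by
  have hp : p.Prime := Fact.out
  obtain ⟨ρ, hρ0, hρ1, hρ⟩ := TH558.GB_CT.t_CT p ((p + 1) ^ L) hp.two_le
  have hp1 : (1 : ℝ) < p := by exact_mod_cast hp.one_lt
  have hlp : 0 < Real.log p := Real.log_pos hp1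
  refine ⟨-Real.log ρ / Real.log p, div_pos (neg_pos.2 (Real.log_neg hρ0 hρ1)) hlp, ?_⟩
  intro H _ _ lam hP
  obtain ⟨r, w, hcard, hw, hW⟩ := FL.t_FL p L H lam hP
  obtain ⟨W, hW1, hW2⟩ := hW ((∑ j, w j) * (p - 1) / 3 + 1) (by omega)
  refine ⟨W, hW1, ?_⟩
  have h1 : Nat.card {e : Fin r → Fin p // ∑ j, w j * (e j : ℕ) < (∑ j, w j) * (p - 1) / 3 + 1} =
      Nat.card {e : Fin r → Fin p // 3 * ∑ j, w j * (e j : ℕ) ≤ (∑ j, w j) * (p - 1)} := by
    apply Nat.card_congr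
    apply Equiv.subtypeEquivRight
    intro e
    omega
  rw [h1] at hW2
  have h2 := hρ r w hw
  have h3 : (Module.finrank (ZMod p) (MonoidAlgebra (ZMod p) H ⧸ W) : ℝ) ≤
      ((lam 0).index : ℝ) * (ρ * p) ^ r := by
    calc (Module.finrank (ZMod p) (MonoidAlgebra (ZMod p) H ⧸ W) : ℝ) ≤
        (((lam 0).index * Nat.card {e : Fin r → Fin p // 3 * ∑ j, w j * (e j : ℕ) ≤
          (∑ j, w j) * (p - 1)} : ℕ) : ℝ) := by exact_mod_cast hW2
      _ ≤ _ := by
        rw [Nat.cast_mul]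
        exact mul_le_mul_of_nonneg_left h2 (Nat.cast_nonneg _)
  refine h3.trans (le_of_eq ?_)
  have h4 : (Nat.card H : ℝ) = ((lam 0).index : ℝ) * (p : ℝ) ^ r := by
    have := (lam 0).card_mul_index
    rw [← this, hcard]
    push_cast
    ring
  rw [h4, hcard, mul_pow, mul_comm (ρ ^ r), mul_assoc]
  congr 2
  push_cast
  rw [← Real.rpow_natCast (p : ℝ) r, ← Real.rpow_mul (by positivity)]
  have h5 : (r : ℝ) * -(-Real.log ρ / Real.log p) = Real.log ρ / Real.log p * r := by ring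
  rw [h5, Real.rpow_mul (by positivity), Real.rpow_natCast]
  congr 1
  rw [Real.rpow_def_of_pos (by positivity)]
  rw [mul_div_cancel₀ _ hlp.ne', Real.exp_log hρ0]

lemma pcs_pi {p : ℕ} {H : Type} [Group H] {L : ℕ} {lam : ℕ → Subgroup H} (hP : PCS p H L lam)
    (n : ℕ) : PCS p (Fin n → H) L (fun i => Subgroup.pi Set.univ fun _ => lam i) := by
  obtain ⟨hn, hd, hc, hpw, hL⟩ := hP
  refine ⟨fun i => ⟨?_⟩, ?_, ?_, ?_, ?_⟩
  · intro x hx g t ht
    exact (hn i).conj_mem _ (hx t ht) _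
  · intro i x hx t ht
    exact hd i (hx t ht)
  · intro i x hx g hg t ht
    exact hc i _ (hx t ht) _ (hg t ht)
  · intro i x hx t ht
    exact hpw i _ (hx t ht)
  · rw [eq_bot_iff]
    intro x hx
    rw [Subgroup.mem_bot]
    funext t
    have := hx t (Set.mem_univ t)
    rw [hL] at this
    simpa using this

lemma sq (p : ℕ) [Fact p.Prime] (L : ℕ) : ∃ c : ℝ, 0 < c ∧ ∀ (H : Type) [Group H] [Finite H]
    (lam : ℕ → Subgroup H), PCS p H L lam →
    SumBound H (Nat.card H * (Nat.card (lam 0) : ℝ) ^ (-c)) := by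
  obtain ⟨c, hc, h⟩ := fb p L
  refine ⟨c, hc, fun H _ _ lam hP => ?_⟩
  have hH : (0 : ℝ) < Nat.card H := by exact_mod_cast Nat.card_pos
  have hl : (0 : ℝ) < Nat.card (lam 0) := by exact_mod_cast Nat.card_pos
  apply TH416.GB_PT.t_PT
  · positivity
  intro n ι _ A B C s hS hs
  obtain ⟨W, hW1, hW2⟩ := h (Fin n → H) _ (pcs_pi hP n)
  have h1 := TH511.GB_TL.t_TL p (Fin n → H) W hW1 ι A B C s hS hs
  have h2 : (Nat.card ι : ℝ) * (s : ℝ) ^ 2 ≤
      3 * (Module.finrank (ZMod p) (MonoidAlgebra (ZMod p) (Fin n → H) ⧸ W) : ℝ) := by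
    exact_mod_cast h1
  refine h2.trans (mul_le_mul_of_nonneg_left (hW2.trans (le_of_eq ?_)) (by norm_num))
  have h3 : Nat.card (Fin n → H) = Nat.card H ^ n := by
    rw [Nat.card_fun]
    simp
  have h4 : Nat.card (Subgroup.pi Set.univ fun _ : Fin n => lam 0 : Subgroup (Fin n → H)) =
      Nat.card (lam 0) ^ n := by
    have e : (Subgroup.pi Set.univ fun _ : Fin n => lam 0 : Subgroup (Fin n → H)) ≃
        (Fin n → lam 0) :=
      { toFun := fun x t => ⟨x.1 t, x.2 t (Set.mem_univ t)⟩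
        invFun := fun x => ⟨fun t => x t, fun t _ => (x t).2⟩
        left_inv := fun x => rfl
        right_inv := fun x => rfl }
    rw [Nat.card_congr e, Nat.card_fun]
    simp
  rw [h3, h4]
  push_cast
  rw [mul_pow, ← Real.rpow_natCast (_ ^ (-c)), ← Real.rpow_mul hl.le, mul_comm (-c),
    Real.rpow_mul hl.le, Real.rpow_natCast]

lemma SumBound.mono {G : Type} [Group G] {β β' : ℝ} (h : SumBound G β) (hb : β ≤ β') :
    SumBound G β' := fun ι _ A B C hS => (h ι A B C hS).trans hb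

lemma unif (k m : ℕ) (N : ℕ) : ∃ c : ℝ, 0 < c ∧ ∀ (p : ℕ) [Fact p.Prime], p ≤ N →
    ∀ (H : Type) [Group H] [Finite H] (lam : ℕ → Subgroup H), PCS p H (k * m) lam →
    SumBound H (Nat.card H * (Nat.card (lam 0) : ℝ) ^ (-c)) := by
  induction N with
  | zero =>
    refine ⟨1, one_pos, fun p hp h => ?_⟩
    exact absurd hp.out.pos (by omega)
  | succ N ih =>
    obtain ⟨c, hc, h⟩ := ih
    have hmono : ∀ (c c' : ℝ), c' ≤ c → ∀ (H : Type) [Group H] [Finite H] (P : Subgroup H),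
        (Nat.card H * (Nat.card P : ℝ) ^ (-c)) ≤ (Nat.card H * (Nat.card P : ℝ) ^ (-c')) := by
      intro c c' hcc H _ _ P
      refine mul_le_mul_of_nonneg_left ?_ (Nat.cast_nonneg _)
      refine Real.rpow_le_rpow_of_exponent_le ?_ (by linarith)
      exact_mod_cast Nat.card_pos
    by_cases hp : (N + 1).Prime
    · have : Fact (N + 1).Prime := ⟨hp⟩
      obtain ⟨c', hc', h'⟩ := sq (N + 1) (k * m)
      refine ⟨min c c', lt_min hc hc', fun p _ hpN H _ _ lam hP => ?_⟩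
      rcases Nat.le_succ_iff.1 hpN with h1 | h1
      · exact (h p h1 H lam hP).mono (hmono _ _ (min_le_left _ _) _ _)
      · subst h1
        exact (h' H lam hP).mono (hmono _ _ (min_le_right _ _) _ _)
    · refine ⟨c, hc, fun p hpp hpN H _ _ lam hP => ?_⟩
      rcases Nat.le_succ_iff.1 hpN with h1 | h1
      · exact h p h1 H lam hP
      · exact absurd hpp.out (by rw [h1]; exact hp)

theorem main (m k : ℕ) (hm : 0 < m) (c : ℝ) (hc : 0 < c) : ∃ e : ℝ, 0 < e ∧ e ≤ 1 / 2 ∧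
    ∀ (G : Type) [Group G] [Finite G] (Q : Subgroup G), Q.Normal → Group.IsSolvable Q →
      (∀ x ∈ Q, x ^ m = 1) →
      (∀ p : ℕ, p.Prime → ∀ P : Subgroup G, P ≤ Q → IsPGroup p P → P.lowerCentralSeries k = ⊥) →
      (Nat.card G : ℝ) ^ c ≤ Nat.card Q → SumBound G ((Nat.card G : ℝ) ^ (1 - e)) := by
  obtain ⟨D, hD⟩ := TH494.GB_DL.t_DL m k hm
  obtain ⟨c1, hc1, h1⟩ := unif k m (m + 1)
  obtain ⟨c3, hc3, h3⟩ := TH866.GB_DM.t_DM m D (c1 / 4) hm (by positivity)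
  refine ⟨min (1 / 2) (c * c3 * (c1 / 2)), lt_min (by norm_num) (by positivity), min_le_left _ _, ?_⟩
  intro G _ _ Q hQn hQs hQm hQc hQG
  have hQm' : ∀ x : Q, x ^ m = 1 := fun x => Subtype.ext (hQm x x.2)
  have hQc' : ∀ p : ℕ, p.Prime → ∀ P : Subgroup Q, IsPGroup p P →
      P.lowerCentralSeries k = ⊥ := by
    intro p hp P hP
    have h4 := hQc p hp (P.map Q.subtype) (Subgroup.map_subtype_le P) (hP.map _)
    rw [← Subgroup.map_lowerCentralSeries] at h4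
    exact (Subgroup.map_eq_bot_iff_of_injective _ Q.subtype_injective).1 h4
  have hDQ := hD Q hQs hQm' hQc'
  obtain ⟨p, hp, hpm, P, hPQ, hPp, hPc, hPi⟩ := h3 G Q hQn hDQ hQm
  have : Fact p.Prime := ⟨hp⟩
  let N : Subgroup G := Subgroup.normalizer (P : Set G)
  have hPN : P ≤ N := Subgroup.le_normalizer
  have hn : (P.subgroupOf N).Normal := Subgroup.normal_in_normalizer
  have hpg : IsPGroup p (P.subgroupOf N) := hPp.comap_subtype
  have hcl : (P.subgroupOf N).lowerCentralSeries k = ⊥ := by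
    have h4 := hQc p hp P hPQ hPp
    have h5 : (P.subgroupOf N).map N.subtype = P := Subgroup.map_subgroupOf_eq_of_le hPN
    rw [← h5, ← Subgroup.map_lowerCentralSeries] at h4
    exact (Subgroup.map_eq_bot_iff_of_injective _ N.subtype_injective).1 h4
  have hexp : ∀ x ∈ P.subgroupOf N, x ^ p ^ m = 1 := by
    intro x hx
    have h4 : x ^ m = 1 := Subtype.ext (hQm x (hPQ hx))
    obtain ⟨j, hj⟩ := hpg ⟨x, hx⟩
    have h5 : x ^ p ^ j = 1 := congrArg Subtype.val hj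
    obtain ⟨i, hi, hi2⟩ := (Nat.dvd_prime_pow hp).1 (orderOf_dvd_of_pow_eq_one h5)
    have h6 : p ^ i ∣ m := hi2 ▸ orderOf_dvd_of_pow_eq_one h4
    have h7 : i < p ^ i := Nat.lt_pow_self hp.one_lt
    have h8 : p ^ i ≤ m := Nat.le_of_dvd hm h6
    apply orderOf_dvd_iff_pow_eq_one.1
    rw [hi2]
    exact pow_dvd_pow p (by omega)
  obtain ⟨lam, hlam, hlam0⟩ := TH511.GB_LS.t_LS p k m N (P.subgroupOf N) hn hpg hcl hexp
  have h4 := h1 p hpm N lam hlam
  have h5 := TH558.GB_SR.t_SR G N _ h4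
  refine h5.mono ?_
  have hcardP : Nat.card (lam 0) = Nat.card P := by
    rw [hlam0]
    exact Nat.card_congr (Subgroup.subgroupOfEquivOfLe hPN).toEquiv
  rw [hcardP]
  have hG1 : (1 : ℝ) ≤ Nat.card G := by exact_mod_cast Nat.card_pos
  have hP1 : (1 : ℝ) ≤ Nat.card P := by exact_mod_cast Nat.card_pos
  have hQ1 : (1 : ℝ) ≤ Nat.card Q := by exact_mod_cast Nat.card_pos
  have hG0 : (0 : ℝ) < Nat.card G := by linarith
  have hP0 : (0 : ℝ) < Nat.card P := by linarith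
  have hidx : (N.index : ℝ) * Nat.card N = Nat.card G := by
    have := N.card_mul_index
    rw [mul_comm]
    exact_mod_cast this
  have hi2 : (N.index : ℝ) ^ 2 ≤ (Nat.card P : ℝ) ^ (c1 / 2) := by
    have h6 : (N.index : ℝ) ^ 2 ≤ ((Nat.card P : ℝ) ^ (c1 / 4)) ^ 2 :=
      pow_le_pow_left₀ (Nat.cast_nonneg _) hPi 2
    refine h6.trans (le_of_eq ?_)
    rw [← Real.rpow_natCast, ← Real.rpow_mul hP0.le]
    congr 1
    push_cast
    ring
  have h6 : (N.index : ℝ) ^ 3 * (Nat.card N * (Nat.card P : ℝ) ^ (-c1)) =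
      Nat.card G * ((N.index : ℝ) ^ 2 * (Nat.card P : ℝ) ^ (-c1)) := by
    rw [← hidx]
    ring
  rw [h6]
  have h7 : (N.index : ℝ) ^ 2 * (Nat.card P : ℝ) ^ (-c1) ≤ (Nat.card P : ℝ) ^ (-(c1 / 2)) := by
    calc (N.index : ℝ) ^ 2 * (Nat.card P : ℝ) ^ (-c1) ≤
        (Nat.card P : ℝ) ^ (c1 / 2) * (Nat.card P : ℝ) ^ (-c1) :=
          mul_le_mul_of_nonneg_right hi2 (by positivity)
      _ = (Nat.card P : ℝ) ^ (-(c1 / 2)) := by
        rw [← Real.rpow_add hP0]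
        congr 1
        ring
  have h8 : (Nat.card G : ℝ) ^ (c * c3) ≤ Nat.card P := by
    refine le_trans ?_ hPc
    rw [Real.rpow_mul hG0.le]
    exact Real.rpow_le_rpow (by positivity) hQG hc3.le
  have h9 : (Nat.card P : ℝ) ^ (-(c1 / 2)) ≤ (Nat.card G : ℝ) ^ (-(c * c3 * (c1 / 2))) := by
    have h10 : (Nat.card P : ℝ) ^ (-(c1 / 2)) ≤ ((Nat.card G : ℝ) ^ (c * c3)) ^ (-(c1 / 2)) :=
      Real.rpow_le_rpow_of_nonpos (by positivity) h8 (by linarith)
    refine h10.trans (le_of_eq ?_)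
    rw [← Real.rpow_mul hG0.le]
    congr 1
    ring
  have h11 : (Nat.card G : ℝ) ^ (-(c * c3 * (c1 / 2))) ≤
      (Nat.card G : ℝ) ^ (-(min (1 / 2) (c * c3 * (c1 / 2)))) :=
    Real.rpow_le_rpow_of_exponent_le hG1 (neg_le_neg (min_le_right _ _))
  calc (Nat.card G : ℝ) * ((N.index : ℝ) ^ 2 * (Nat.card P : ℝ) ^ (-c1)) ≤
      (Nat.card G : ℝ) * (Nat.card G : ℝ) ^ (-(min (1 / 2) (c * c3 * (c1 / 2)))) :=
        mul_le_mul_of_nonneg_left (h7.trans (h9.trans h11)) hG0.le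
    _ = (Nat.card G : ℝ) ^ (1 - (min (1 / 2) (c * c3 * (c1 / 2)))) := by
      conv_lhs => rw [← Real.rpow_one (Nat.card G : ℝ)]
      rw [← Real.rpow_mul hG0.le, one_mul, ← Real.rpow_add hG0]
      congr 1

/-- from the sum bound to all exponents up to `2 + ε` -/
theorem final (G : Type) [Group G] [Finite G] (e : ℝ) (he : 0 < e) (he2 : e ≤ 1 / 2)
    (h : SumBound G ((Nat.card G : ℝ) ^ (1 - e))) (ι : Type) [Fintype ι] (A B C : ι → Finset G)
    (hS : STPP A B C) (τ : ℝ) (h2 : 2 ≤ τ) (hτ : τ ≤ 2 + 2 * e) :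
    ∑ i, (((A i).card * (B i).card * (C i).card : ℕ) : ℝ) ^ (τ / 3) ≤ Nat.card G := by
  have hG1 : (1 : ℝ) ≤ Nat.card G := by exact_mod_cast Nat.card_pos
  have hG0 : (0 : ℝ) < Nat.card G := by linarith
  have h1 := h ι A B C hS
  set u : ι → ℝ := fun i => (((A i).card * (B i).card * (C i).card : ℕ) : ℝ) with hu
  have hu0 : ∀ i, 0 ≤ u i := fun i => Nat.cast_nonneg _
  set v : ι → ℝ := fun i => u i ^ ((2 : ℝ) / 3) with hv
  have hv0 : ∀ i, 0 ≤ v i := fun i => Real.rpow_nonneg (hu0 i) _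
  have hvS : ∀ i, v i ≤ (Nat.card G : ℝ) ^ (1 - e) := fun i =>
    (Finset.single_le_sum (fun j _ => hv0 j) (Finset.mem_univ i)).trans h1
  have h3 : ∀ i, u i ^ (τ / 3) ≤ v i * ((Nat.card G : ℝ) ^ (1 - e)) ^ (τ / 2 - 1) := by
    intro i
    have e1 : u i ^ (τ / 3) = v i ^ (τ / 2) := by
      rw [hv]
      simp only
      rw [← Real.rpow_mul (hu0 i)]
      congr 1
      ring
    rw [e1]
    rcases (hv0 i).eq_or_lt with h0 | h0
    · rw [← h0, Real.zero_rpow (by linarith), zero_mul]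
    · have e2 : v i ^ (τ / 2) = v i * v i ^ (τ / 2 - 1) := by
        conv_rhs => rw [← Real.rpow_one (v i)]
        rw [← Real.rpow_mul h0.le, one_mul, ← Real.rpow_add h0]
        congr 1
        ring
      rw [e2]
      exact mul_le_mul_of_nonneg_left (Real.rpow_le_rpow h0.le (hvS i) (by linarith)) h0.le
  calc ∑ i, u i ^ (τ / 3) ≤ ∑ i, v i * ((Nat.card G : ℝ) ^ (1 - e)) ^ (τ / 2 - 1) :=
        Finset.sum_le_sum fun i _ => h3 i
    _ = (∑ i, v i) * ((Nat.card G : ℝ) ^ (1 - e)) ^ (τ / 2 - 1) := by rw [Finset.sum_mul]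
    _ ≤ (Nat.card G : ℝ) ^ (1 - e) * ((Nat.card G : ℝ) ^ (1 - e)) ^ (τ / 2 - 1) :=
        mul_le_mul_of_nonneg_right h1 (by positivity)
    _ = (Nat.card G : ℝ) ^ ((1 - e) * (τ / 2)) := by
        rw [← Real.rpow_mul hG0.le, ← Real.rpow_add hG0]
        congr 1
        ring
    _ ≤ (Nat.card G : ℝ) ^ (1 : ℝ) := by
        refine Real.rpow_le_rpow_of_exponent_le hG1 ?_
        nlinarith
    _ = Nat.card G := Real.rpow_one _

end Pool.Agent.TH97.GB
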