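import Pool.Agent.TH97.GB.Defs

set_option autoImplicit false
set_option linter.unusedSectionVars false

namespace Pool.Agent.TH97.GB.FL

open MonoidAlgebra

variable {p : ℕ} [Fact p.Prime] {H : Type} [Group H] {L : ℕ} {lam : ℕ → Subgroup H}

/-- the group element `x` in the group algebra -/
noncomputable def dl (p : ℕ) {H : Type} [Group H] (x : H) : MonoidAlgebra (ZMod p) H :=
  MonoidAlgebra.of (ZMod p) H x

lemma dl_mul (p : ℕ) {H : Type} [Group H] (x y : H) : dl p (x * y) = dl p x * dl p y :=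
  map_mul (MonoidAlgebra.of (ZMod p) H) x y

lemma dl_one (p : ℕ) {H : Type} [Group H] : dl p (1 : H) = 1 :=
  map_one (MonoidAlgebra.of (ZMod p) H)

lemma dl_pow (p : ℕ) {H : Type} [Group H] (x : H) (n : ℕ) : dl p (x ^ n) = dl p x ^ n :=
  map_pow (MonoidAlgebra.of (ZMod p) H) x n

/-- valid lists -/
def Vl (lam : ℕ → Subgroup H) (l : List (ℕ × H)) : Prop := ∀ t ∈ l, t.2 ∈ lam t.1

/-- weight -/
def wt (p : ℕ) {H : Type} (l : List (ℕ × H)) : ℕ := (l.map fun t => (p + 1) ^ t.1).sum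

/-- product -/
noncomputable def pr (p : ℕ) {H : Type} [Group H] (l : List (ℕ × H)) : MonoidAlgebra (ZMod p) H :=
  (l.map fun t => dl p t.2 - 1).prod

/-- the filtration -/
noncomputable def J (p : ℕ) {H : Type} [Group H] (lam : ℕ → Subgroup H) (a : ℕ) :
    Submodule (ZMod p) (MonoidAlgebra (ZMod p) H) :=
  Submodule.span (ZMod p) {u | ∃ l : List (ℕ × H), Vl lam l ∧ a ≤ wt p l ∧ pr p l = u}

lemma pr_mem {a : ℕ} {l : List (ℕ × H)} (h : Vl lam l) (ha : a ≤ wt p l) : pr p l ∈ J p lam a :=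
  Submodule.subset_span ⟨l, h, ha, rfl⟩

lemma J_anti {a b : ℕ} (h : a ≤ b) : J p lam b ≤ J p lam a := by
  apply Submodule.span_mono
  rintro u ⟨l, h1, h2, h3⟩
  exact ⟨l, h1, h.trans h2, h3⟩

lemma J_mul_le (a b : ℕ) : J p lam a * J p lam b ≤ J p lam (a + b) := by
  unfold J
  rw [Submodule.span_mul_span]
  apply Submodule.span_mono
  rintro u ⟨x, ⟨l, h1, h2, rfl⟩, y, ⟨l', h1', h2', rfl⟩, rfl⟩
  refine ⟨l ++ l', ?_, ?_, ?_⟩
  · intro t ht
    rcases List.mem_append.1 ht with h | h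
    · exact h1 t h
    · exact h1' t h
  · simp only [wt, List.map_append, List.sum_append]
    exact Nat.add_le_add h2 h2'
  · simp only [pr, List.map_append, List.prod_append]

lemma J_mul {a b : ℕ} {x y : MonoidAlgebra (ZMod p) H} (hx : x ∈ J p lam a) (hy : y ∈ J p lam b) :
    x * y ∈ J p lam (a + b) := J_mul_le a b (Submodule.mul_mem_mul hx hy)

lemma one_mem : (1 : MonoidAlgebra (ZMod p) H) ∈ J p lam 0 := by
  have := pr_mem (p := p) (lam := lam) (a := 0) (l := []) (by intro t ht; simp at ht) (Nat.zero_le _)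
  simpa [pr] using this

lemma dl_sub_mem {i : ℕ} {x : H} (hx : x ∈ lam i) : dl p x - 1 ∈ J p lam ((p + 1) ^ i) := by
  have := pr_mem (p := p) (lam := lam) (a := (p + 1) ^ i) (l := [(i, x)])
    (by intro t ht; simp at ht; subst ht; exact hx) (by simp [wt])
  simpa [pr] using this

lemma dl_mem {i : ℕ} {x : H} (hx : x ∈ lam i) : dl p x ∈ J p lam 0 := by
  have h1 := J_anti (Nat.zero_le _) (dl_sub_mem (p := p) hx)
  have h2 := (J p lam 0).add_mem h1 one_mem
  simpa using h2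

/-- conjugation -/
lemma conj_mem (hn : ∀ i, (lam i).Normal) (h : H) {a : ℕ} {u : MonoidAlgebra (ZMod p) H}
    (hu : u ∈ J p lam a) : dl p h * u * dl p h⁻¹ ∈ J p lam a := by
  unfold J at hu
  induction hu using Submodule.span_induction with
  | mem x hx =>
    obtain ⟨l, h1, h2, rfl⟩ := hx
    have h3 : ∀ l : List (ℕ × H), dl p h * pr p l * dl p h⁻¹ =
        pr p (l.map fun t => (t.1, h * t.2 * h⁻¹)) := by
      intro l
      induction l with
      | nil => simp [pr, ← dl_mul, dl_one]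
      | cons t l ih =>
        have h4 : pr p (t :: l) = (dl p t.2 - 1) * pr p l := by simp [pr]
        have h5 : pr p ((t :: l).map fun t => (t.1, h * t.2 * h⁻¹)) =
            (dl p (h * t.2 * h⁻¹) - 1) * pr p (l.map fun t => (t.1, h * t.2 * h⁻¹)) := by
          simp [pr]
        rw [h4, h5, ← ih]
        have h6 : dl p h⁻¹ * dl p h = (1 : MonoidAlgebra (ZMod p) H) := by
          rw [← dl_mul, inv_mul_cancel, dl_one]
        have h7 : dl p h * dl p h⁻¹ = (1 : MonoidAlgebra (ZMod p) H) := by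
          rw [← dl_mul, mul_inv_cancel, dl_one]
        have h8 : dl p (h * t.2 * h⁻¹) = dl p h * dl p t.2 * dl p h⁻¹ := by
          rw [dl_mul, dl_mul]
        rw [h8]
        have h9 : (dl p h * dl p t.2 * dl p h⁻¹ - 1) = dl p h * (dl p t.2 - 1) * dl p h⁻¹ := by
          rw [mul_sub, sub_mul, mul_one, h7]
        rw [h9]
        have h10 : dl p h * (dl p t.2 - 1) * dl p h⁻¹ * (dl p h * pr p l * dl p h⁻¹) =
            dl p h * (dl p t.2 - 1) * (dl p h⁻¹ * dl p h) * pr p l * dl p h⁻¹ := by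
          simp only [mul_assoc]
        rw [h10, h6, mul_one]
        simp only [mul_assoc]
    rw [h3]
    refine pr_mem ?_ ?_
    · intro t ht
      obtain ⟨s, hs, rfl⟩ := List.mem_map.1 ht
      exact (hn s.1).conj_mem _ (h1 s hs) h
    · have : wt p (l.map fun t => (t.1, h * t.2 * h⁻¹)) = wt p l := by
        simp [wt, Function.comp_def]
      rw [this]
      exact h2
  | zero => simp
  | add x y _ _ hx hy =>
    rw [mul_add, add_mul]
    exact Submodule.add_mem _ hx hy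
  | smul c x _ hx =>
    rw [mul_smul_comm, smul_mul_assoc]
    exact Submodule.smul_mem _ _ hx

lemma anti (hd : ∀ i, lam (i + 1) ≤ lam i) : ∀ {i j : ℕ}, i ≤ j → lam j ≤ lam i := by
  intro i j h
  exact antitone_nat_of_succ_le hd h

/-- swapping two factors -/
lemma swap_mem (hP : PCS p H L lam) {i j : ℕ} {x y : H} (hx : x ∈ lam i) (hy : y ∈ lam j) :
    (dl p x - 1) * (dl p y - 1) - (dl p y - 1) * (dl p x - 1) ∈
      J p lam ((p + 1) ^ i + (p + 1) ^ j + 1) := by
  obtain ⟨hn, hd, hc, hpw, hL⟩ := hP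
  have h0 : ∀ i, lam i ≤ lam 0 := fun i => anti hd (Nat.zero_le i)
  have hc1 : x⁻¹ * y⁻¹ * x * y ∈ lam (i + 1) := hc i x hx y (h0 j hy)
  have hc2 : x⁻¹ * y⁻¹ * x * y ∈ lam (j + 1) := by
    have := (lam (j + 1)).inv_mem (hc j y hy x (h0 i hx))
    have e : (y⁻¹ * x⁻¹ * y * x)⁻¹ = x⁻¹ * y⁻¹ * x * y := by group
    rwa [e] at this
  have hc3 : x⁻¹ * y⁻¹ * x * y ∈ lam (max i j + 1) := by
    rcases le_total i j with h | h
    · rw [max_eq_right h]; exact hc2
    · rw [max_eq_left h]; exact hc1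
  have h1 := dl_sub_mem (p := p) hc3
  have h2 : dl p (y * x) ∈ J p lam 0 := by
    rw [dl_mul]
    exact J_mul (a := 0) (b := 0) (dl_mem hy) (dl_mem hx)
  have h3 := J_mul h2 h1
  have e : (dl p x - 1) * (dl p y - 1) - (dl p y - 1) * (dl p x - 1) =
      dl p (y * x) * (dl p (x⁻¹ * y⁻¹ * x * y) - 1) := by
    have e1 : dl p (y * x) * dl p (x⁻¹ * y⁻¹ * x * y) = dl p (x * y) := by
      rw [← dl_mul]
      congr 1
      group
    have e2 : dl p (y * x) * (dl p (x⁻¹ * y⁻¹ * x * y) - 1) = dl p (x * y) - dl p (y * x) := by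
      rw [mul_sub, e1, mul_one]
    rw [e2, dl_mul, dl_mul]
    noncomm_ring
  rw [e]
  refine J_anti ?_ h3
  have h4 : (p + 1) ^ i ≤ (p + 1) ^ max i j := Nat.pow_le_pow_right (by omega) (le_max_left _ _)
  have h5 : (p + 1) ^ j ≤ (p + 1) ^ max i j := Nat.pow_le_pow_right (by omega) (le_max_right _ _)
  have h6 : 1 ≤ (p + 1) ^ max i j := Nat.one_le_pow _ _ (by omega)
  have hp2 : 2 ≤ p := (Fact.out : p.Prime).two_le
  rw [pow_succ]
  nlinarith

/-- the logarithm is additive modulo higher terms -/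
lemma add_mem' (hP : PCS p H L lam) {i : ℕ} {x y : H} (hx : x ∈ lam i) (hy : y ∈ lam i) :
    (dl p (x * y) - 1) - (dl p x - 1) - (dl p y - 1) ∈ J p lam ((p + 1) ^ i + 1) := by
  have h3 := J_mul (dl_sub_mem (p := p) hx) (dl_sub_mem (p := p) hy)
  have e : (dl p (x * y) - 1) - (dl p x - 1) - (dl p y - 1) = (dl p x - 1) * (dl p y - 1) := by
    rw [dl_mul]
    noncomm_ring
  rw [e]
  refine J_anti ?_ h3
  have h6 : 1 ≤ (p + 1) ^ i := Nat.one_le_pow _ _ (by omega)
  omega

lemma next_mem {i : ℕ} {x : H} (hx : x ∈ lam (i + 1)) :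
    dl p x - 1 ∈ J p lam ((p + 1) ^ i + 1) := by
  refine J_anti ?_ (dl_sub_mem (p := p) hx)
  have h6 : 1 ≤ (p + 1) ^ i := Nat.one_le_pow _ _ (by omega)
  have hp2 : 2 ≤ p := (Fact.out : p.Prime).two_le
  rw [pow_succ]
  nlinarith

lemma pow_mem' (hP : PCS p H L lam) {i : ℕ} {x : H} (hx : x ∈ lam i) :
    (dl p x - 1) ^ p ∈ J p lam (p * (p + 1) ^ i + 1) := by
  obtain ⟨hn, hd, hc, hpw, hL⟩ := hP
  have h1 : (dl p x - 1) ^ p = dl p (x ^ p) - 1 := by
    have : CharP (MonoidAlgebra (ZMod p) H) p :=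
      charP_of_injective_algebraMap (algebraMap (ZMod p) (MonoidAlgebra (ZMod p) H)).injective p
    have h2 := sub_pow_char_of_commute (R := MonoidAlgebra (ZMod p) H) (p := p)
      (Commute.one_right (dl p x))
    rw [h2, one_pow, dl_pow]
  rw [h1]
  refine J_anti ?_ (dl_sub_mem (p := p) (hpw i x hx))
  have h6 : 1 ≤ (p + 1) ^ i := Nat.one_le_pow _ _ (by omega)
  rw [pow_succ]
  nlinarith

end Pool.Agent.TH97.GB.FL
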