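import Pool.Agent.TH97.GB.FL1

set_option autoImplicit false
set_option linter.unusedSectionVars false

namespace Pool.Agent.TH97.GB.FL

open MonoidAlgebra

lemma layer_aux0 (p : ℕ) [Fact p.Prime] {A : Type} [CommGroup A] [Finite A]
    [Module (ZMod p) (Additive A)] {V : Type} [AddCommGroup V] [Module (ZMod p) V]
    (f : A →* Multiplicative V) : ∃ (s : ℕ) (g : Fin s → A), Nat.card A = p ^ s ∧
      ∀ a, Multiplicative.toAdd (f a) ∈
        Submodule.span (ZMod p) (Set.range fun j => Multiplicative.toAdd (f (g j))) := by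
  have hfin : Module.Finite (ZMod p) (Additive A) := by
    have : Finite (Additive A) := inferInstanceAs (Finite A)
    exact Module.Finite.of_finite
  let b : Module.Basis (Fin (Module.finrank (ZMod p) (Additive A))) (ZMod p) (Additive A) :=
    Module.finBasis (ZMod p) (Additive A)
  let f2 : Additive A →+ V :=
    { toFun := fun a => Multiplicative.toAdd (f (Additive.toMul a))
      map_zero' := by simp
      map_add' := by intro a b; simp }
  let f3 : Additive A →ₗ[ZMod p] V := f2.toZModLinearMap p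
  refine ⟨Module.finrank (ZMod p) (Additive A), fun j => Additive.toMul (b j), ?_, ?_⟩
  · have := Module.natCard_eq_pow_finrank (K := ZMod p) (V := Additive A)
    rw [Nat.card_zmod] at this
    rw [← this]
    rfl
  · intro a
    have h1 := b.sum_repr (Additive.ofMul a)
    have h2 := congrArg f3 h1
    rw [map_sum] at h2
    change _ = Multiplicative.toAdd (f a) at h2
    rw [← h2]
    refine Submodule.sum_mem _ fun j _ => ?_
    rw [map_smul]
    exact Submodule.smul_mem _ _ (Submodule.subset_span ⟨j, rfl⟩)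

lemma layer_aux (p : ℕ) [Fact p.Prime] {A : Type} [CommGroup A] [Finite A]
    (h : ∀ a : A, a ^ p = 1) {V : Type} [AddCommGroup V] [Module (ZMod p) V]
    (f : A →* Multiplicative V) : ∃ (s : ℕ) (g : Fin s → A), Nat.card A = p ^ s ∧
      ∀ a, Multiplicative.toAdd (f a) ∈
        Submodule.span (ZMod p) (Set.range fun j => Multiplicative.toAdd (f (g j))) := by
  have hp0 : ∀ a : Additive A, p • a = 0 := by
    intro a
    obtain ⟨a, rfl⟩ := Additive.ofMul.surjective a
    rw [← ofMul_pow, ← ofMul_one, h]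
  exact @layer_aux0 p _ A _ _ (AddCommGroup.zmodModule hp0) V _ _ f

variable {p : ℕ} [Fact p.Prime] {H : Type} [Group H] {L : ℕ} {lam : ℕ → Subgroup H}

/-- generators of one layer -/
lemma layer [Finite H] (hP : PCS p H L lam) (i : ℕ) : ∃ (s : ℕ) (g : Fin s → H),
    (∀ j, g j ∈ lam i) ∧ Nat.card (lam i) = p ^ s * Nat.card (lam (i + 1)) ∧
    ∀ x ∈ lam i, dl p x - 1 ∈ Submodule.span (ZMod p) (Set.range fun j => dl p (g j) - 1) ⊔
      J p lam ((p + 1) ^ i + 1) := by
  obtain ⟨hn, hd, hc, hpw, hL⟩ := hP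
  have hP : PCS p H L lam := ⟨hn, hd, hc, hpw, hL⟩
  let N : Subgroup (lam i) := (lam (i + 1)).subgroupOf (lam i)
  have hN : N.Normal := by
    have := hn (i + 1)
    infer_instance
  have hcomm : ∀ a b : (lam i ⧸ N), a * b = b * a := by
    intro a b
    induction a using QuotientGroup.induction_on with | H a => ?_
    induction b using QuotientGroup.induction_on with | H b => ?_
    rw [← QuotientGroup.mk_mul, ← QuotientGroup.mk_mul, QuotientGroup.eq]
    have h1 := hc i (b : H) b.2 (a : H) (anti hd (Nat.zero_le i) a.2)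
    rw [Subgroup.mem_subgroupOf]
    simpa [mul_assoc] using h1
  let CG : CommGroup (lam i ⧸ N) := { (inferInstance : Group (lam i ⧸ N)) with mul_comm := hcomm }
  have hp0 : ∀ a : (lam i ⧸ N), a ^ p = 1 := by
    intro a
    induction a using QuotientGroup.induction_on with | H a => ?_
    rw [← QuotientGroup.mk_pow, QuotientGroup.eq_one_iff, Subgroup.mem_subgroupOf]
    exact hpw i _ a.2
  -- the homomorphism
  let f0 : lam i →* Multiplicative (MonoidAlgebra (ZMod p) H ⧸ J p lam ((p + 1) ^ i + 1)) :=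
    MonoidHom.mk' (fun x => Multiplicative.ofAdd (Submodule.Quotient.mk (dl p (x : H) - 1))) (by
      intro x y
      rw [← ofAdd_add]
      congr 1
      rw [← Submodule.Quotient.mk_add, Submodule.Quotient.eq]
      have := add_mem' hP x.2 y.2
      have e : dl p ((x * y : lam i) : H) - 1 - (dl p (x : H) - 1 + (dl p (y : H) - 1)) =
          (dl p ((x : H) * (y : H)) - 1) - (dl p (x : H) - 1) - (dl p (y : H) - 1) := by
        rw [Subgroup.coe_mul]
        abel
      rw [e]
      exact this)
  have hker : N ≤ f0.ker := by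
    intro x hx
    rw [Subgroup.mem_subgroupOf] at hx
    rw [MonoidHom.mem_ker]
    change Multiplicative.ofAdd _ = _
    rw [← ofAdd_zero]
    congr 1
    rw [Submodule.Quotient.mk_eq_zero]
    exact next_mem hx
  let f1 : lam i ⧸ N →* Multiplicative (MonoidAlgebra (ZMod p) H ⧸ J p lam ((p + 1) ^ i + 1)) :=
    QuotientGroup.lift N f0 hker
  obtain ⟨s, g, hs, hg⟩ := layer_aux p (A := lam i ⧸ N) hp0 f1
  choose g' hg' using fun j => QuotientGroup.mk_surjective (g j)
  refine ⟨s, fun j => (g' j : H), fun j => (g' j).2, ?_, ?_⟩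
  · have h2 : Nat.card N = Nat.card (lam (i + 1)) :=
      Nat.card_congr (Subgroup.subgroupOfEquivOfLe (hd i)).toEquiv
    rw [← h2, ← hs]
    exact Subgroup.card_eq_card_quotient_mul_card_subgroup N
  · intro x hx
    have h1 := hg (QuotientGroup.mk (⟨x, hx⟩ : lam i))
    have h2 : Multiplicative.toAdd (f1 (QuotientGroup.mk (⟨x, hx⟩ : lam i))) =
      (J p lam ((p + 1) ^ i + 1)).mkQ (dl p x - 1) := rfl
    have h3 : (Set.range fun j => Multiplicative.toAdd (f1 (g j))) =
        (J p lam ((p + 1) ^ i + 1)).mkQ '' (Set.range fun j => dl p (g' j : H) - 1) := by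
      rw [← Set.range_comp]
      congr 1
      funext j
      rw [← hg' j]
      rfl
    rw [h2, h3, ← Submodule.map_span] at h1
    obtain ⟨y, hy, hyx⟩ := h1
    rw [← sub_eq_zero, ← map_sub, Submodule.mkQ_apply, Submodule.Quotient.mk_eq_zero] at hyx
    have h4 : dl p x - 1 = y + (-(y - (dl p x - 1))) := by abel
    rw [h4]
    exact Submodule.add_mem_sup hy (Submodule.neg_mem _ hyx)

/-- a generating system -/
structure Gen (p : ℕ) {H : Type} [Group H] (L : ℕ) (lam : ℕ → Subgroup H) (ι : Type) [Fintype ι]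
    (g : ι → H) (ly : ι → ℕ) : Prop where
  lt : ∀ j, ly j < L
  mem : ∀ j, g j ∈ lam (ly j)
  card : Nat.card (lam 0) = p ^ Fintype.card ι
  gen : ∀ i, ∀ x ∈ lam i, dl p x - 1 ∈
    Submodule.span (ZMod p) {u | ∃ j, ly j = i ∧ dl p (g j) - 1 = u} ⊔ J p lam ((p + 1) ^ i + 1)

lemma exists_gen [Finite H] (hP : PCS p H L lam) : ∃ (ι : Type) (_ : Fintype ι) (g : ι → H)
    (ly : ι → ℕ), Gen p L lam ι g ly := by
  choose s g hg hc hx using fun i => layer hP i
  refine ⟨Σ i : Fin L, Fin (s i), inferInstance, fun t => g t.1 t.2, fun t => t.1, ?_, ?_, ?_, ?_⟩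
  · intro j; exact j.1.2
  · intro j; exact hg _ _
  · have h1 : ∀ n, Nat.card (lam 0) = p ^ (∑ i ∈ Finset.range n, s i) * Nat.card (lam n) := by
      intro n
      induction n with
      | zero => simp
      | succ n ih => rw [ih, hc n, Finset.sum_range_succ, pow_add, mul_assoc]
    rw [h1 L, hP.2.2.2.2]
    simp only [Fintype.card_sigma, Fintype.card_fin, Subgroup.card_bot, mul_one]
    congr 1
    exact Finset.sum_range s
  · intro i x hxi
    by_cases hi : i < L
    · have h2 : (Set.range fun j => dl p (g i j) - 1) ⊆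
          {u | ∃ j : (Σ i : Fin L, Fin (s i)), (j.1 : ℕ) = i ∧ dl p (g j.1 j.2) - 1 = u} := by
        rintro u ⟨j, rfl⟩
        exact ⟨⟨⟨i, hi⟩, j⟩, rfl, rfl⟩
      have h3 := sup_le_sup_right (Submodule.span_mono (R := ZMod p) h2)
        (J p lam ((p + 1) ^ i + 1))
      exact h3 (hx i x hxi)
    · have h1 : lam i ≤ ⊥ := by
        rw [← hP.2.2.2.2]
        exact anti hP.2.1 (not_lt.1 hi)
      have h2 : x = 1 := by simpa using h1 hxi
      rw [h2, dl_one, sub_self]
      exact Submodule.zero_mem _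

end Pool.Agent.TH97.GB.FL
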