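import Pool.Agent.TH97.GB.FL2

set_option autoImplicit false
set_option linter.unusedSectionVars false

namespace Pool.Agent.TH97.GB.FL

open MonoidAlgebra

variable {p : ℕ} [Fact p.Prime] {H : Type} [Group H] {L : ℕ} {lam : ℕ → Subgroup H}
variable {ι : Type} [Fintype ι] [DecidableEq ι] {g : ι → H} {ly : ι → ℕ}

/-- product of generators along a list -/
noncomputable def gp (p : ℕ) (g : ι → H) (l : List ι) : MonoidAlgebra (ZMod p) H :=
  (l.map fun j => dl p (g j) - 1).prod

/-- weight of a list of generators -/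
def wl (p : ℕ) (ly : ι → ℕ) (l : List ι) : ℕ := (l.map fun j => (p + 1) ^ ly j).sum

lemma gp_cons (j : ι) (l : List ι) : gp p g (j :: l) = (dl p (g j) - 1) * gp p g l := by
  simp [gp]

lemma wl_cons (j : ι) (l : List ι) : wl p ly (j :: l) = (p + 1) ^ ly j + wl p ly l := by
  simp [wl]

lemma gp_append (l l' : List ι) : gp p g (l ++ l') = gp p g l * gp p g l' := by
  simp [gp]

lemma wl_append (l l' : List ι) : wl p ly (l ++ l') = wl p ly l + wl p ly l' := by
  simp [wl]

lemma gp_mem (hg : ∀ j, g j ∈ lam (ly j)) (l : List ι) : gp p g l ∈ J p lam (wl p ly l) := by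
  induction l with
  | nil => simpa [gp, wl] using one_mem (p := p) (lam := lam)
  | cons j l ih =>
    rw [gp_cons, wl_cons]
    exact J_mul (dl_sub_mem (hg j)) ih

lemma perm_mem (hP : PCS p H L lam) (hg : ∀ j, g j ∈ lam (ly j)) {l l' : List ι}
    (h : l.Perm l') : gp p g l - gp p g l' ∈ J p lam (wl p ly l + 1) := by
  induction h with
  | nil => simp
  | cons x _ ih =>
    rw [gp_cons, gp_cons, ← mul_sub, wl_cons, add_assoc]
    exact J_mul (dl_sub_mem (hg x)) ih
  | swap x y l =>
    rw [gp_cons, gp_cons, gp_cons, gp_cons, wl_cons, wl_cons, ← mul_assoc, ← mul_assoc, ← sub_mul]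
    have h1 := J_mul (swap_mem hP (hg y) (hg x)) (gp_mem (p := p) hg l)
    refine J_anti ?_ h1
    omega
  | trans h1 h2 ih1 ih2 =>
    rename_i l1 l2 l3
    have hw : wl p ly l1 = wl p ly l2 := (h1.map _).sum_eq
    rw [← hw] at ih2
    have := Submodule.add_mem _ ih1 ih2
    simpa using this

/-- replacing all factors by generators -/
lemma repl (hG : Gen p L lam ι g ly) (l : List (ℕ × H)) (hl : Vl lam l) :
    pr p l ∈ Submodule.span (ZMod p) {u | ∃ l' : List ι, wl p ly l' = wt p l ∧ gp p g l' = u} ⊔
      J p lam (wt p l + 1) := by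
  induction l with
  | nil =>
    refine Submodule.mem_sup_left (Submodule.subset_span ⟨[], ?_, ?_⟩)
    · simp [wl, wt]
    · simp [gp, pr]
  | cons t l ih =>
    have hl' : Vl lam l := fun s hs => hl s (List.mem_cons_of_mem _ hs)
    have h1 := ih hl'
    have h2 := hG.gen t.1 t.2 (hl t List.mem_cons_self)
    have e1 : pr p (t :: l) = (dl p t.2 - 1) * pr p l := by simp [pr]
    have e2 : wt p (t :: l) = (p + 1) ^ t.1 + wt p l := by simp [wt]
    rw [e1, e2]
    obtain ⟨a, ha, b, hb, hab⟩ := Submodule.mem_sup.1 h2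
    obtain ⟨c, hc, d, hd, hcd⟩ := Submodule.mem_sup.1 h1
    rw [← hab, ← hcd]
    have ha' : a ∈ J p lam ((p + 1) ^ t.1) := by
      refine (Submodule.span_le.2 ?_) ha
      rintro u ⟨j, hj, rfl⟩
      rw [← hj]
      exact dl_sub_mem (hG.mem j)
    have hc' : c ∈ J p lam (wt p l) := by
      refine (Submodule.span_le.2 ?_) hc
      rintro u ⟨l', hl', rfl⟩
      rw [← hl']
      exact gp_mem hG.mem l'
    have e3 : (a + b) * (c + d) = a * c + (a * d + b * (c + d)) := by noncomm_ring
    rw [e3]
    refine Submodule.add_mem_sup ?_ ?_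
    · have h3 : a * c ∈ Submodule.span (ZMod p) {u | ∃ j, ly j = t.1 ∧ dl p (g j) - 1 = u} *
          Submodule.span (ZMod p) {u | ∃ l' : List ι, wl p ly l' = wt p l ∧ gp p g l' = u} :=
        Submodule.mul_mem_mul ha hc
      rw [Submodule.span_mul_span] at h3
      refine (Submodule.span_mono ?_) h3
      rintro u ⟨x, ⟨j, hj, rfl⟩, y, ⟨l', hl', rfl⟩, rfl⟩
      refine ⟨j :: l', ?_, ?_⟩
      · rw [wl_cons, hj, hl']
      · rw [gp_cons]
    · refine Submodule.add_mem _ ?_ ?_
      · have := J_mul ha' hd
        rwa [← add_assoc] at this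
      · have h4 : c + d ∈ J p lam (wt p l) :=
          Submodule.add_mem _ hc' (J_anti (Nat.le_succ _) hd)
        have := J_mul hb h4
        refine J_anti ?_ this
        omega

/-- the ordered monomial with exponents `e` -/
noncomputable def mono (p : ℕ) (g : ι → H) (e : ι → ℕ) : MonoidAlgebra (ZMod p) H :=
  ((Finset.univ : Finset ι).toList.map fun j => (dl p (g j) - 1) ^ e j).prod

/-- the weight of exponents -/
def we (p : ℕ) (ly : ι → ℕ) (e : ι → ℕ) : ℕ := ∑ j, (p + 1) ^ ly j * e j

lemma gp_replicate (n : ℕ) (j : ι) : gp p g (List.replicate n j) = (dl p (g j) - 1) ^ n := by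
  simp [gp]

lemma wl_replicate (n : ℕ) (j : ι) : wl p ly (List.replicate n j) = n * (p + 1) ^ ly j := by
  simp [wl]

/-- the sorted list -/
def srt (e : ι → ℕ) (L : List ι) : List ι := L.flatMap fun j => List.replicate (e j) j

lemma gp_srt (e : ι → ℕ) (L : List ι) : gp p g (srt e L) =
    (L.map fun j => (dl p (g j) - 1) ^ e j).prod := by
  induction L with
  | nil => simp [srt, gp]
  | cons j L ih =>
    have : srt e (j :: L) = List.replicate (e j) j ++ srt e L := by simp [srt]
    rw [this, gp_append, ih, gp_replicate]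
    simp

lemma count_srt (e : ι → ℕ) (L : List ι) (hL : L.Nodup) (j : ι) :
    (srt e L).count j = if j ∈ L then e j else 0 := by
  induction L with
  | nil => simp [srt]
  | cons i L ih =>
    have h1 : srt e (i :: L) = List.replicate (e i) i ++ srt e L := by simp [srt]
    rw [List.nodup_cons] at hL
    rw [h1, List.count_append, ih hL.2, List.count_replicate]
    by_cases hij : i = j
    · subst hij
      simp [hL.1]
    · have : ¬ (j = i) := fun h => hij h.symm
      simp [hij, this]

lemma wl_count (l : List ι) : wl p ly l = we p ly fun j => l.count j := by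
  induction l with
  | nil => simp [wl, we]
  | cons i l ih =>
    rw [wl_cons, ih]
    unfold we
    have h1 : ∀ j, (p + 1) ^ ly j * (i :: l).count j =
        (p + 1) ^ ly j * l.count j + (if i = j then (p + 1) ^ ly j else 0) := by
      intro j
      rw [List.count_cons]
      by_cases h : i = j
      · subst h; simp [mul_add]
      · simp [h]
    simp_rw [h1]
    rw [Finset.sum_add_distrib, Finset.sum_ite_eq]
    simp [add_comm]

/-- normal form of a product of generators -/
lemma nf (hP : PCS p H L lam) (hg : ∀ j, g j ∈ lam (ly j)) (l : List ι) :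
    gp p g l ∈ Submodule.span (ZMod p)
      {u | ∃ e : ι → Fin p, we p ly (fun j => (e j : ℕ)) = wl p ly l ∧
        mono p g (fun j => (e j : ℕ)) = u} ⊔ J p lam (wl p ly l + 1) := by
  by_cases h : ∃ j, p ≤ l.count j
  · obtain ⟨j, hj⟩ := h
    have h1 : (List.replicate p j ++ l.diff (List.replicate p j)).Perm l := by
      rw [List.perm_iff_count]
      intro i
      rw [List.count_append, List.count_diff, List.count_replicate]
      by_cases hij : j = i
      · subst hij
        simp
        omega
      · simp [hij]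
    have h2 := perm_mem hP hg h1.symm
    have h3 : gp p g (List.replicate p j ++ l.diff (List.replicate p j)) ∈
        J p lam (wl p ly l + 1) := by
      rw [gp_append, gp_replicate]
      have h4 := J_mul (pow_mem' hP (hg j)) (gp_mem (p := p) hg (l.diff (List.replicate p j)))
      have h5 : wl p ly l = wl p ly (List.replicate p j ++ l.diff (List.replicate p j)) :=
        (h1.symm.map _).sum_eq
      rw [h5, wl_append, wl_replicate]
      refine J_anti ?_ h4
      omega
    have h6 := Submodule.add_mem _ h2 h3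
    rw [sub_add_cancel] at h6
    exact Submodule.mem_sup_right h6
  · push Not at h
    let e : ι → Fin p := fun j => ⟨l.count j, h j⟩
    have h1 : l.Perm (srt (fun j => (e j : ℕ)) (Finset.univ : Finset ι).toList) := by
      rw [List.perm_iff_count]
      intro i
      rw [count_srt _ _ (Finset.nodup_toList _)]
      simp [e]
    have h2 := perm_mem hP hg h1
    rw [gp_srt] at h2
    have h3 : gp p g l = mono p g (fun j => (e j : ℕ)) +
      (gp p g l - mono p g (fun j => (e j : ℕ))) := by abel
    rw [h3]
    refine Submodule.add_mem_sup (Submodule.subset_span ⟨e, ?_, rfl⟩) h2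
    rw [wl_count]

/-- the span of the monomials of weight at least `a` -/
noncomputable def Sp (p : ℕ) (g : ι → H) (ly : ι → ℕ) (a : ℕ) :
    Submodule (ZMod p) (MonoidAlgebra (ZMod p) H) :=
  Submodule.span (ZMod p) {u | ∃ e : ι → Fin p, a ≤ we p ly (fun j => (e j : ℕ)) ∧
    mono p g (fun j => (e j : ℕ)) = u}

lemma J_le_step (hP : PCS p H L lam) (hG : Gen p L lam ι g ly) (a : ℕ) :
    J p lam a ≤ Sp p g ly a ⊔ J p lam (a + 1) := by
  refine Submodule.span_le.2 ?_
  rintro u ⟨l, h1, h2, rfl⟩
  rcases h2.eq_or_lt with h3 | h3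
  · have h4 := repl hG l h1
    rw [← h3] at h4
    refine (sup_le ?_ le_sup_right : _ ≤ Sp p g ly a ⊔ J p lam (a + 1)) h4
    refine Submodule.span_le.2 ?_
    rintro u ⟨l', h5, rfl⟩
    have h6 := nf hP hG.mem l'
    rw [h5] at h6
    refine (sup_le_sup_right (Submodule.span_mono ?_) _ : _ ≤ Sp p g ly a ⊔ J p lam (a + 1)) h6
    rintro u ⟨e, h7, rfl⟩
    exact ⟨e, h7.ge, rfl⟩
  · exact Submodule.mem_sup_right (pr_mem h1 h3)

lemma J_le (hP : PCS p H L lam) (hG : Gen p L lam ι g ly) {b : ℕ} (hb : J p lam b = ⊥) (a : ℕ) :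
    J p lam a ≤ Sp p g ly a := by
  have h1 : ∀ n a, b ≤ a + n → J p lam a ≤ Sp p g ly a := by
    intro n
    induction n with
    | zero =>
      intro a ha
      have : J p lam a ≤ ⊥ := by rw [← hb]; exact J_anti (by simpa using ha)
      exact this.trans bot_le
    | succ n ih =>
      intro a ha
      refine (J_le_step hP hG a).trans (sup_le le_rfl ?_)
      refine (ih (a + 1) (by omega)).trans ?_
      refine Submodule.span_mono ?_
      rintro u ⟨e, h1, rfl⟩
      exact ⟨e, by omega, rfl⟩
  exact h1 b a (by omega)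

end Pool.Agent.TH97.GB.FL
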