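import Pool.Agent.TH97.GB.FL3

set_option autoImplicit false
set_option linter.unusedSectionVars false

namespace Pool.Agent.TH97.GB.FL

open MonoidAlgebra

variable {p : ℕ} [Fact p.Prime] {H : Type} [Group H] {L : ℕ} {lam : ℕ → Subgroup H}
variable {ι : Type} [Fintype ι] [DecidableEq ι] {g : ι → H} {ly : ι → ℕ}

lemma dl_mul_mem (hd : ∀ i, lam (i + 1) ≤ lam i) {n : ℕ} {x : H} (hx : x ∈ lam 0)
    {u : MonoidAlgebra (ZMod p) H} (hu : u ∈ J p lam n) : dl p x * u ∈ J p lam n := by
  have h1 := J_mul (dl_mem (p := p) hx) hu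
  rwa [zero_add] at h1

lemma fixed_functional {P V : Type} [Group P] [Finite P] (hP : IsPGroup p P) [AddCommGroup V]
    [Module (ZMod p) V] [Finite V] [Nontrivial V] (T : P →* (V →ₗ[ZMod p] V)) :
    ∃ b : V →ₗ[ZMod p] ZMod p, b ≠ 0 ∧ ∀ x v, b (T x v) = b v := by
  let act : MulAction P (V →ₗ[ZMod p] ZMod p) :=
    { smul := fun x φ => φ.comp (T x⁻¹)
      one_smul := by
        intro φ
        change φ.comp (T 1⁻¹) = φ
        rw [inv_one, map_one]
        rfl
      mul_smul := by
        intro x y φ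
        change φ.comp (T (x * y)⁻¹) = (φ.comp (T y⁻¹)).comp (T x⁻¹)
        rw [mul_inv_rev, map_mul]
        rfl }
  have hfin : Finite (V →ₗ[ZMod p] ZMod p) := Finite.of_injective (fun f => (f : V → ZMod p))
    DFunLike.coe_injective
  have hfd : Module.Finite (ZMod p) V := Module.Finite.of_finite
  have hcard : p ∣ Nat.card (V →ₗ[ZMod p] ZMod p) := by
    rw [Module.natCard_eq_pow_finrank (K := ZMod p), Nat.card_zmod]
    refine dvd_pow_self _ ?_
    have h1 : Module.finrank (ZMod p) (V →ₗ[ZMod p] ZMod p) = Module.finrank (ZMod p) V := by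
      exact Subspace.dual_finrank_eq
    rw [h1]
    exact Module.finrank_pos.ne'
  have h0 : (0 : V →ₗ[ZMod p] ZMod p) ∈ MulAction.fixedPoints P (V →ₗ[ZMod p] ZMod p) := by
    intro x
    change (0 : V →ₗ[ZMod p] ZMod p).comp (T x⁻¹) = 0
    exact LinearMap.zero_comp _
  obtain ⟨b, hb, hb0⟩ := hP.exists_fixed_point_of_prime_dvd_card_of_fixed_point _ hcard h0
  refine ⟨b, hb0.symm, fun x v => ?_⟩
  have h1 : b.comp (T (x⁻¹)⁻¹) = b := hb x⁻¹
  rw [inv_inv] at h1
  exact congrArg (fun f : V →ₗ[ZMod p] ZMod p => f v) h1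

lemma exists_bot [Finite H] (hP : PCS p H L lam) (hpg : IsPGroup p (lam 0)) :
    ∃ b, J p lam b = ⊥ := by
  classical
  have hd := hP.2.1
  have hfd : Module.Finite (ZMod p) (MonoidAlgebra (ZMod p) H) := inferInstance
  have hfin : Finite (MonoidAlgebra (ZMod p) H) := Module.finite_of_finite (ZMod p)
  have hart : IsArtinian (ZMod p) (MonoidAlgebra (ZMod p) H) := inferInstance
  let f : ℕ →o (Submodule (ZMod p) (MonoidAlgebra (ZMod p) H))ᵒᵈ :=
    ⟨fun n => OrderDual.toDual (J p lam n), fun a b h => J_anti (p := p) (lam := lam) h⟩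
  obtain ⟨n, hn⟩ := IsArtinian.monotone_stabilizes f
  have hn' : ∀ m, n ≤ m → J p lam n = J p lam m := fun m hm => hn m hm
  refine ⟨n, ?_⟩
  by_contra hne
  have hnt : Nontrivial (J p lam n) := Submodule.nontrivial_iff_ne_bot.2 hne
  let T0 : lam 0 → (J p lam n →ₗ[ZMod p] J p lam n) := fun x =>
    ((LinearMap.mulLeft (ZMod p) (dl p (x : H))).restrict
      (fun u hu => by
        rw [LinearMap.mulLeft_apply]
        exact dl_mul_mem hd x.2 hu))
  let T : lam 0 →* (J p lam n →ₗ[ZMod p] J p lam n) :=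
    { toFun := T0
      map_one' := by
        refine LinearMap.ext fun u => Subtype.ext ?_
        change dl p ((1 : lam 0) : H) * (u : MonoidAlgebra (ZMod p) H) = _
        rw [Subgroup.coe_one, dl_one, one_mul]
        rfl
      map_mul' := by
        intro x y
        refine LinearMap.ext fun u => Subtype.ext ?_
        change dl p ((x * y : lam 0) : H) * (u : MonoidAlgebra (ZMod p) H) =
          dl p (x : H) * (dl p (y : H) * (u : MonoidAlgebra (ZMod p) H))
        rw [Subgroup.coe_mul, dl_mul, mul_assoc] }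
  have hV : Finite (J p lam n) := inferInstance
  obtain ⟨b, hb0, hb⟩ := fixed_functional hpg T
  apply hb0
  ext ⟨u, hu⟩
  have h1 : ∀ u ∈ J p lam (n + (p + 1) ^ L + 1), ∃ hu : u ∈ J p lam n, b ⟨u, hu⟩ = 0 := by
    intro u hu
    unfold J at hu
    induction hu using Submodule.span_induction with
    | mem u hu =>
      obtain ⟨l, hl, hw, rfl⟩ := hu
      have hmem : pr p l ∈ J p lam n := pr_mem hl (by omega)
      refine ⟨hmem, ?_⟩
      cases l with
      | nil => simp [wt] at hw
      | cons t l =>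
        have hl' : Vl lam l := fun s hs => hl s (List.mem_cons_of_mem _ hs)
        have e1 : pr p (t :: l) = (dl p t.2 - 1) * pr p l := by simp [pr]
        have ht0 : t.2 ∈ lam 0 := anti hd (Nat.zero_le _) (hl t List.mem_cons_self)
        by_cases hi : t.1 < L
        · have hm : pr p l ∈ J p lam n := by
            refine pr_mem hl' ?_
            have e2 : wt p (t :: l) = (p + 1) ^ t.1 + wt p l := by simp [wt]
            have e3 : (p + 1) ^ t.1 ≤ (p + 1) ^ L := Nat.pow_le_pow_right (by omega) hi.le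
            omega
          have e4 : (⟨pr p (t :: l), hmem⟩ : J p lam n) = T ⟨t.2, ht0⟩ ⟨pr p l, hm⟩ -
              ⟨pr p l, hm⟩ := by
            ext1
            change pr p (t :: l) = dl p t.2 * pr p l - pr p l
            rw [e1, sub_mul, one_mul]
          rw [e4, map_sub, hb, sub_self]
        · have h2 : lam t.1 ≤ ⊥ := by
            rw [← hP.2.2.2.2]
            exact anti hd (not_lt.1 hi)
          have h3 : t.2 = 1 := by simpa using h2 (hl t List.mem_cons_self)
          have e4 : (⟨pr p (t :: l), hmem⟩ : J p lam n) = 0 := by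
            ext1
            change pr p (t :: l) = 0
            rw [e1, h3, dl_one, sub_self, zero_mul]
          rw [e4, map_zero]
    | zero => exact ⟨Submodule.zero_mem _, by
        have : (⟨0, Submodule.zero_mem _⟩ : J p lam n) = 0 := rfl
        rw [this, map_zero]⟩
    | add x y _ _ hx hy =>
      obtain ⟨hx1, hx2⟩ := hx
      obtain ⟨hy1, hy2⟩ := hy
      refine ⟨Submodule.add_mem _ hx1 hy1, ?_⟩
      have : (⟨x + y, Submodule.add_mem _ hx1 hy1⟩ : J p lam n) = ⟨x, hx1⟩ + ⟨y, hy1⟩ := rfl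
      rw [this, map_add, hx2, hy2, add_zero]
    | smul c x _ hx =>
      obtain ⟨hx1, hx2⟩ := hx
      refine ⟨Submodule.smul_mem _ _ hx1, ?_⟩
      have : (⟨c • x, Submodule.smul_mem _ _ hx1⟩ : J p lam n) = c • ⟨x, hx1⟩ := rfl
      rw [this, map_smul, hx2, smul_zero]
  rw [hn' (n + (p + 1) ^ L + 1) (by omega)] at hu
  obtain ⟨h2, h3⟩ := h1 u hu
  simpa using h3

end Pool.Agent.TH97.GB.FL
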