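import Pool.Agent.TH97.GB.FL4

set_option autoImplicit false
set_option linter.unusedSectionVars false

namespace Pool.Agent.TH97.GB.FL

open MonoidAlgebra

variable {p : ℕ} [Fact p.Prime] {H : Type} [Group H] {L : ℕ} {lam : ℕ → Subgroup H}
variable {ι : Type} [Fintype ι] [DecidableEq ι] {g : ι → H} {ly : ι → ℕ}

/-- the left ideal generated by the filtration -/
noncomputable def Wd (p : ℕ) {H : Type} [Group H] (lam : ℕ → Subgroup H) (a : ℕ) :
    Submodule (ZMod p) (MonoidAlgebra (ZMod p) H) :=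
  Submodule.span (ZMod p) {v | ∃ (h : H) (u : MonoidAlgebra (ZMod p) H), u ∈ J p lam a ∧
    dl p h * u = v}

lemma Wd_mul (hn : ∀ i, (lam i).Normal) (a b : ℕ) :
    Wd p lam a * Wd p lam b ≤ Wd p lam (a + b) := by
  unfold Wd
  rw [Submodule.span_mul_span]
  apply Submodule.span_mono
  rintro v ⟨x, ⟨h, u, hu, rfl⟩, y, ⟨k, u', hu', rfl⟩, rfl⟩
  refine ⟨h * k, (dl p k⁻¹ * u * dl p (k⁻¹)⁻¹) * u', J_mul (conj_mem hn k⁻¹ hu) hu', ?_⟩
  have h1 : dl p k * dl p k⁻¹ = (1 : MonoidAlgebra (ZMod p) H) := by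
    rw [← dl_mul, mul_inv_cancel, dl_one]
  rw [inv_inv, dl_mul]
  have e : dl p h * dl p k * (dl p k⁻¹ * u * dl p k * u') =
      dl p h * (dl p k * dl p k⁻¹) * u * dl p k * u' := by
    simp only [mul_assoc]
  rw [e, h1, mul_one]
  simp only [mul_assoc]

lemma Wd_bot {a : ℕ} (h : J p lam a = ⊥) : Wd p lam a = ⊥ := by
  unfold Wd
  rw [Submodule.span_eq_bot]
  rintro v ⟨k, u, hu, rfl⟩
  rw [h, Submodule.mem_bot] at hu
  rw [hu, mul_zero]

lemma mono_mem (hg : ∀ j, g j ∈ lam (ly j)) (e : ι → ℕ) : mono p g e ∈ J p lam (we p ly e) := by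
  have h1 := gp_mem (p := p) hg (srt e (Finset.univ : Finset ι).toList)
  rw [gp_srt] at h1
  have h2 : wl p ly (srt e (Finset.univ : Finset ι).toList) = we p ly e := by
    rw [wl_count]
    unfold we
    refine Finset.sum_congr rfl fun j _ => ?_
    have h3 := count_srt e (Finset.univ : Finset ι).toList (Finset.nodup_toList _) j
    rw [if_pos (by simp)] at h3
    rw [← h3]
  rw [h2] at h1
  exact h1

lemma span_dl [Finite H] : Submodule.span (ZMod p) (Set.range (dl p (H := H))) = ⊤ := by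
  have h1 := (MonoidAlgebra.basis H (ZMod p)).span_eq
  rw [← h1]
  congr 2

lemma codim [Finite H] (hP : PCS p H L lam) (hG : Gen p L lam ι g ly)
    {b : ℕ} (hb : J p lam b = ⊥) (a : ℕ) :
    Module.finrank (ZMod p) (MonoidAlgebra (ZMod p) H ⧸ Wd p lam a) ≤
      (lam 0).index * Nat.card {e : ι → Fin p // we p ly (fun j => (e j : ℕ)) < a} := by
  classical
  let B : (H ⧸ lam 0) × {e : ι → Fin p // we p ly (fun j => (e j : ℕ)) < a} →
      MonoidAlgebra (ZMod p) H := fun t => dl p t.1.out * mono p g (fun j => (t.2.1 j : ℕ))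
  have h1 : ∀ h : H, dl p h ∈ Submodule.span (ZMod p) (Set.range B) ⊔ Wd p lam a := by
    intro h
    have h2 : ((QuotientGroup.mk h : H ⧸ lam 0).out)⁻¹ * h ∈ lam 0 :=
      QuotientGroup.eq.1 (QuotientGroup.out_eq' (QuotientGroup.mk h : H ⧸ lam 0))
    have h3 := J_le hP hG hb 0 (dl_mem (p := p) h2)
    have h4 : dl p h = dl p ((QuotientGroup.mk h : H ⧸ lam 0).out) *
        dl p (((QuotientGroup.mk h : H ⧸ lam 0).out)⁻¹ * h) := by
      rw [← dl_mul]
      congr 1
      group
    rw [h4]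
    unfold Sp at h3
    generalize dl p (((QuotientGroup.mk h : H ⧸ lam 0).out)⁻¹ * h) = v at h3 ⊢
    induction h3 using Submodule.span_induction with
    | mem u hu =>
      obtain ⟨e, he, rfl⟩ := hu
      by_cases hea : we p ly (fun j => (e j : ℕ)) < a
      · exact Submodule.mem_sup_left (Submodule.subset_span ⟨(QuotientGroup.mk h, ⟨e, hea⟩), rfl⟩)
      · refine Submodule.mem_sup_right (Submodule.subset_span ⟨_, _, ?_, rfl⟩)
        exact J_anti (not_lt.1 hea) (mono_mem hG.mem _)
    | zero => rw [mul_zero]; exact Submodule.zero_mem _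
    | add x y _ _ hx hy => rw [mul_add]; exact Submodule.add_mem _ hx hy
    | smul c x _ hx => rw [mul_smul_comm]; exact Submodule.smul_mem _ _ hx
  have h2 : Submodule.span (ZMod p) (Set.range B) ⊔ Wd p lam a = ⊤ := by
    rw [eq_top_iff, ← span_dl, Submodule.span_le]
    rintro u ⟨h, rfl⟩
    exact h1 h
  have h3 : Submodule.span (ZMod p) (Set.range ((Wd p lam a).mkQ ∘ B)) = ⊤ := by
    rw [Set.range_comp, ← Submodule.map_span]
    have h4 := congrArg (Submodule.map (Wd p lam a).mkQ) h2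
    rw [Submodule.map_sup, Submodule.map_top, Submodule.range_mkQ] at h4
    rw [← h4]
    have h5 : Submodule.map (Wd p lam a).mkQ (Wd p lam a) = ⊥ := by
      rw [eq_bot_iff, Submodule.map_le_iff_le_comap, Submodule.comap_bot, Submodule.ker_mkQ]
    rw [h5, sup_bot_eq]
  have hfin : Finite (H ⧸ lam 0) := inferInstance
  have := Fintype.ofFinite (H ⧸ lam 0)
  have h6 := finrank_range_le_card (R := ZMod p) ((Wd p lam a).mkQ ∘ B)
  unfold Set.finrank at h6
  rw [h3, finrank_top] at h6
  rw [Fintype.card_prod] at h6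
  rw [Subgroup.index, Nat.card_eq_fintype_card, Nat.card_eq_fintype_card]
  exact h6

theorem t_FL : P_FL := by
  intro p _ L H _ _ lam hP
  classical
  obtain ⟨ι, _, g, ly, hG⟩ := exists_gen hP
  have hpg : IsPGroup p (lam 0) := IsPGroup.of_card hG.card
  obtain ⟨b, hb⟩ := exists_bot hP hpg
  let σ : Fin (Fintype.card ι) ≃ ι := (Fintype.equivFin ι).symm
  have hw : ∀ e : ι → Fin p, ∑ j, (p + 1) ^ ly (σ j) * ((e (σ j) : Fin p) : ℕ) =
      we p ly (fun j => (e j : ℕ)) := fun e =>
    Equiv.sum_comp σ (fun j => (p + 1) ^ ly j * ((e j : Fin p) : ℕ))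
  refine ⟨Fintype.card ι, fun j => (p + 1) ^ ly (σ j), hG.card, fun j => ⟨?_, ?_⟩, fun a ha => ?_⟩
  · exact Nat.one_le_pow _ _ (by omega)
  · exact Nat.pow_le_pow_right (by omega) (hG.lt _).le
  · refine ⟨Wd p lam a, ?_, ?_⟩
    · have h1 : J p lam (3 * a) = ⊥ := by
        rw [eq_bot_iff]
        refine (J_le hP hG hb (3 * a)).trans ?_
        unfold Sp
        rw [Submodule.span_le]
        rintro u ⟨e, he, rfl⟩
        exfalso
        have h2 : we p ly (fun j => (e j : ℕ)) ≤ (∑ j, (p + 1) ^ ly (σ j)) * (p - 1) := by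
          rw [← hw, Finset.sum_mul]
          refine Finset.sum_le_sum fun j _ => Nat.mul_le_mul_left _ ?_
          have := (e (σ j)).2
          omega
        have h3 : (∑ j, (p + 1) ^ ly (σ j)) * (p - 1) < 3 * a := ha
        omega
      have h2 : Wd p lam (3 * a) = ⊥ := Wd_bot h1
      intro x hx y hy z hz
      have h3 : x * y * z ∈ Wd p lam (3 * a) := by
        have h4 := Wd_mul hP.1 a a (Submodule.mul_mem_mul hx hy)
        have h5 := Wd_mul hP.1 (a + a) a (Submodule.mul_mem_mul h4 hz)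
        have e : a + a + a = 3 * a := by ring
        rwa [e] at h5
      rw [h2] at h3
      simpa using h3
    · refine (codim hP hG hb a).trans (Nat.mul_le_mul_left _ ?_)
      refine le_of_eq (Nat.card_congr ?_)
      refine (Equiv.subtypeEquiv (Equiv.arrowCongr σ.symm (Equiv.refl (Fin p))) ?_)
      intro e
      have h1 := hw e
      constructor
      · intro h
        rw [← h1] at h
        exact h
      · intro h
        rw [← h1]
        exact h

end Pool.Agent.TH97.GB.FL
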